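import Pool.Agent.Helper93.IW.OutE

set_option autoImplicit false

namespace Pool.Agent.Results.MP_54e5d7_al.OuterMinkowski

/-- The kernel of right multiplication by the matrix `A` on row vectors of length `m` over
`ℓ²(G)`. -/
def kernel {G : Type} [Group G] {m n : ℕ} (A : Matrix (Fin m) (Fin n) (G →₀ ℂ)) :
    Set (lp (fun _ : Fin m × G => ℂ) 2) :=
  {x | ∀ (j : Fin n) (g : G),
    ∑ i : Fin m, (A i j).sum (fun h c => x (i, g * h⁻¹) * c) = 0}

open Classical in
/-- The von Neumann dimension of this kernel: the sum over `i` of one minus the squared distance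
from the basis vector at `(i, 1)` to the kernel, that is, the trace of the projection onto the
kernel. -/
noncomputable def kerDim {G : Type} [Group G] {m n : ℕ} (A : Matrix (Fin m) (Fin n) (G →₀ ℂ)) :
    ℝ :=
  ∑ i : Fin m, (1 - (Metric.infDist
    (lp.single 2 (i, (1 : G)) (1 : ℂ) : lp (fun _ : Fin m × G => ℂ) 2) (kernel A)) ^ 2)

/-- Inner automorphisms form a normal subgroup. -/
instance innNormal (H : Type) [Group H] : (MulAut.conj : H →* MulAut H).range.Normal :=
  Pool.Agent.Helper93.IW.Inn_normal H

/-- The outer automorphism group of `H`: the quotient of the group of automorphisms by the subgroup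
of the inner automorphisms. -/
abbrev Out (H : Type) [Group H] : Type := MulAut H ⧸ (MulAut.conj : H →* MulAut H).range

/-- The Minkowski number: the product over the primes `l` of `l ^ (k + v)`, where `k` is the
integer part of `n / (l - 1)` and `v` is the exponent of `l` in `k!`. It is the least common
multiple of the orders of the finite subgroups of the group of invertible integer matrices of
size `n` (Minkowski). -/
def minkowski (n : ℕ) : ℕ :=
  ∏ l ∈ (Finset.range (n + 2)).filter Nat.Prime,
    l ^ (n / (l - 1) + padicValNat l (n / (l - 1)).factorial)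

/-- Let `G` be any group of outer automorphisms of the free group of finite rank `r`. Then for every
`m × n` matrix `A` over the complex group ring of `G` the product of `2 ^ (r / 2)`, the Minkowski
number of `r` and `n - m + dim ker A` is an integer. -/
theorem result (r : ℕ) (G : Type) [Group G] (act : G →* Out (FreeGroup (Fin r)))
    (hact : Function.Injective act) (m n : ℕ) (A : Matrix (Fin m) (Fin n) (G →₀ ℂ)) :
    ∃ z : ℤ, ((2 ^ (r / 2) * minkowski r : ℕ) : ℝ) * ((n : ℝ) - (m : ℝ) + kerDim A) = z := by
  have hex := Pool.Agent.Helper93.IW.exists_F (FreeGroup (Fin r))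
  rw [Pool.Agent.Helper93.IW.finrank_ab r] at hex
  obtain ⟨F, s, N, hs, hN, hF⟩ := hex
  have key : ∃ z : ℤ, ((2 ^ (r / 2) * Pool.Agent.Helper93.IW.mink r : ℕ) : ℝ) * kerDim A = z := by
    apply Pool.Agent.Helper93.IW.combine
    · exact mul_ne_zero (pow_ne_zero _ two_ne_zero) (Pool.Agent.Helper93.IW.mink_ne_zero r)
    · intro l hl
      obtain ⟨p, hpB, hpp, hle⟩ := Pool.Agent.Helper93.IW.exists_good_prime r l hl (max 2 N)
      have hp : p.Prime := hpp.out
      have hp2 : p ≠ 2 := by
        have := le_max_left 2 N
        omega
      have hpN : Nat.Coprime N p := by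
        rw [Nat.coprime_comm, hp.coprime_iff_not_dvd]
        intro h
        have h1 := Nat.le_of_dvd hN h
        have := le_max_right 2 N
        omega
      refine ⟨_, Nat.card_pos.ne', hle, ?_⟩
      set L : Subgroup G :=
        (Pool.Agent.Helper93.IW.lvl act p).map (Pool.Agent.Helper93.IW.pq act) with hL
      have hfi : L.FiniteIndex := Pool.Agent.Helper93.IW.map_lvl_fi act p hp.pos
      have hfin : Finite (G ⧸ L) := Subgroup.finite_quotient_of_finiteIndex
      have hC : Pool.Agent.Helper93.IW.CR ℤ_[p] (p : ℤ_[p]) L :=
        Pool.Agent.Helper93.IW.CR_out act hact p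
      obtain ⟨z, hz⟩ := Pool.Agent.Helper93.IW.CR.dim_fi hp2 L hC (Pool.Agent.W656.VA.cv A)
      have h1 : kerDim A = _ := Pool.Agent.W656.VA.kerDim_eq A
      obtain ⟨k, hk⟩ := (Pool.Agent.Helper93.IW.index_map_lvl act p).trans
        (Pool.Agent.Helper93.IW.index_dvd (Pool.Agent.Helper93.IW.pa act) F s hs hN hF p hpN
          (Pool.Agent.Helper93.IW.lvl act p) (Pool.Agent.Helper93.IW.mem_lvl act p))
      refine ⟨k * z, ?_⟩
      rw [hk, h1]
      push_cast
      rw [← hz]
      ring
  obtain ⟨z, hz⟩ := key
  refine ⟨(2 ^ (r / 2) * Pool.Agent.Helper93.IW.mink r : ℕ) * (n - m) + z, ?_⟩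
  have h2 : minkowski r = Pool.Agent.Helper93.IW.mink r := rfl
  rw [h2, mul_add, hz]
  push_cast
  ring

end Pool.Agent.Results.MP_54e5d7_al.OuterMinkowski

/-
Reserve copy of helper93's hand-in; its claim file was:

Proves: For every group G of outer automorphisms of the free group of finite rank r and every m x n matrix A over C[G], 2^floor(r/2) M(r) (n-m+dim ker A) is an integer, M(r) being the Minkowski number.
Definitions: kernel A = kernel of right multiplication by A on l2(G)^m; kerDim A = its von Neumann dimension (trace of the orthogonal projection); Out H = Aut(H)/Inn(H), using innNormal (Inn(H) is a normal subgroup); minkowski n = product over primes l<=n+1 of l^(k+v_l(k!)), k=floor(n/(l-1)).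
Relation: Partial answer to Q1. M(r) is the lcm of the orders of the finite subgroups of Out(F_r) for r>=2 (classical, not reproved), so Out(F_r) satisfies the conjecture over C up to the factor 2^floor(r/2): its odd part is fully proved, for all r; the denominators are bounded for all subgroups, such as (by Dehn-Nielsen-Baer, not proved here) mapping class groups of punctured surfaces. The companion OuterAutomorphisms treats one prime p, this uses all odd primes at once; MinkowskiBound is about Aut(H). Earlier work: Grossman, Farkas-Linnell, Schick, Jaikin-Zapirain, Minkowski's gcd argument; I know no source for this bound.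
-/
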